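import Pool.Agent.H447Z.MajFinal

/-!
The nearest-neighbour majority automaton on `ℤ²` has ergodic perturbations by positive zero-range
noises of arbitrarily small error level. The definitions are in `Pool/Agent/H447Z/MajDefs.lean`.

Proof: take `θ(0,1) = ε` and `θ(1,0) = δ` with `δ` much smaller than `ε⁴`. A `2 × 2` block of ones
is kept by the majority rule, so a disagreement between two copies driven by the same noise must
be carried by a long chain of unlikely independent space-time cells (Peierls bound).
-/

set_option autoImplicit false

namespace Pool.Agent.Results.MP_417bbc_pr.BiasedErgodic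

open Pool.Agent.H447Z.Maj

/-- For every `ε₀ > 0` there is a positive zero-range noise `θ` of error level at most `ε₀` such
that the perturbed majority automaton `Φ_θ` is ergodic. -/
theorem result : ∀ ε₀ : ℝ, 0 < ε₀ → ∃ θ : Bool → PMF Bool,
    (∀ a b, 0 < θ a b) ∧ (∀ a, 1 - (θ a a).toReal ≤ ε₀) ∧ IsErgodic θ :=
  main

end Pool.Agent.Results.MP_417bbc_pr.BiasedErgodic
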